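import Pool.Agent.Helper48.HE.Main

open Set

namespace Pool.Agent.Results.MP_beb0a8_an.HalfSpace

open Pool.Agent.Helper48.HalfEuler

/-- **Wandering solutions of the three-dimensional Euler equation in a half-space.**  Let
`M = {x | 0 < x 2}` and let the phase space be the space of divergence-free velocity fields,
tangent to the wall `x 2 = 0` and with vorticity tangent to the wall, of finite weighted `C^{1,α}`
norm with weight `(1 + |x|)^β`, where `3 < β ≤ 4`. Every velocity `v₀` which does not vanish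
identically on the wall is wandering; moreover, for every `T > 0` some ball `U` about `v₀`
satisfies `S_t(U) ∩ U = ∅` for all `t ≥ T`. Such velocities exist, and they are dense. -/
theorem result (α β : ℝ) (hα0 : 0 < α) (hα1 : α < 1) (hβ : 3 < β) (_hβ : β ≤ 4) :
    (∀ v₀ : E → E, IsVelocity α β v₀ → (∃ x : E, x 2 = 0 ∧ v₀ x ≠ 0) →
      ∀ T > 0, ∃ r > 0, NoReturn α β T r v₀) ∧
    (∃ v₀ : E → E, IsVelocity α β v₀ ∧ ∃ x : E, x 2 = 0 ∧ v₀ x ≠ 0) ∧
    (∀ v : E → E, IsVelocity α β v → ∀ r > 0, ∃ v₀ : E → E, IsVelocity α β v₀ ∧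
      Close α β r v v₀ ∧ ∃ x : E, x 2 = 0 ∧ v₀ x ≠ 0) := by
  refine ⟨fun _ hv₀ hne _ hT => noReturn_of_ne hβ hv₀ hne hT, ?_,
    fun _ hv _ hr => dense_ne hα0 hα1 hβ hv hr⟩
  obtain ⟨w, hw, x, hx, hwx⟩ := Pool.Agent.Helper88.HalfEuler.pf_Ex α β hα0 hα1 hβ
  exact ⟨w, hw, x, hx, fun h => hwx (by rw [h]; rfl)⟩

end Pool.Agent.Results.MP_beb0a8_an.HalfSpace
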