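import Pool.Agent.Helper75.Slab.All

set_option autoImplicit false

open Set Pool.Agent.Helper75.Slab

namespace Pool.Agent.Results.MP_beb0a8_an.Slab

/-- There is a smooth velocity field on the slab, bounded with all its derivatives, such that no
solution of the Euler equations starting close to it in the `C^1` norm is close to it in the `C^1`
norm at any time `t ≥ 1`. -/
theorem result :
    ∃ v₀ : E → E, ContDiff ℝ ((⊤ : ℕ∞) : WithTop ℕ∞) v₀ ∧
      (∀ n : ℕ, ∃ C : ℝ, ∀ x, ‖iteratedFDeriv ℝ n v₀ x‖ ≤ C) ∧ IsVelocity v₀ ∧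
      ∃ r : ℝ, 0 < r ∧ ∀ t : ℝ, 1 ≤ t → ∀ u : ℝ → E → E, IsEulerSolution t u →
        Close r (u 0) v₀ → ¬ Close r (u t) v₀ :=
  ⟨v0, hV0A.1, hV0A.2, hV0B.1, 1 / 200, by norm_num,
    fun t ht u hu h0 h1 => main hLAG hLABEL hDISP hDRIFT hV0B t ht u hu h0 h1⟩

end Pool.Agent.Results.MP_beb0a8_an.Slab
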