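import Pool.Agent.Helper33.WanderMain

open Set

namespace Pool.Agent.Results.MP_beb0a8_an.Tetrahedron

open Pool.Agent.Helper33.Wander

/-- **Wandering solutions of the three-dimensional Euler equation.**  Let `M` be the tetrahedron
`{x | |x₂| < x₁ < x₀, x₀ + x₁ < 1}`, with a vertex at `0`, and let the phase space be the space of
divergence-free velocity fields of class `C^{1,α}` up to the boundary and tangent to the boundary,
with the `C^{1,α}` topology. Every velocity `v₀` whose gradient at the vertex `0` does not vanish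
is wandering; moreover, for every `T > 0` some ball `U` about `v₀` satisfies
`S_t(U) ∩ U = ∅` for all `t ≥ T`. Such velocities exist, and they are dense. -/
theorem result (α : ℝ) (hα0 : 0 < α) (hα1 : α < 1) :
    (∀ v₀ : E → E, IsVelocity α v₀ → (∃ i j, pd j (fun x => v₀ x i) 0 ≠ 0) →
      ∀ T > 0, ∃ r > 0, NoReturn α T r v₀) ∧
    (∃ v₀ : E → E, IsVelocity α v₀ ∧ ∃ i j, pd j (fun x => v₀ x i) 0 ≠ 0) ∧
    (∀ v : E → E, IsVelocity α v → ∀ r > 0, ∃ v₀ : E → E, IsVelocity α v₀ ∧ Close α r v v₀ ∧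
      ∃ i j, pd j (fun x => v₀ x i) 0 ≠ 0) :=
  ⟨fun _ hv₀ hne _ hT => noReturn_of_ne hv₀ hne hT,
    ⟨w0, isVelocity_w0 hα0 hα1, 0, 0, by rw [w0_ne]; norm_num⟩,
    fun _ hv _ hr => dense_ne hα0 hα1 hv hr⟩

end Pool.Agent.Results.MP_beb0a8_an.Tetrahedron
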