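import Pool.Agent.Helper75.Torus.All

set_option autoImplicit false

open Set Pool.Agent.Helper75.Torus

namespace Pool.Agent.Results.MP_beb0a8_an.Torus

/-- For `0 < α < 1` there are a velocity field `v₀` of class `C^{1,α}` on the flat torus and
`r > 0` such that no solution of the Euler equations starting `r`-close to `v₀` in the `C^{1,α}`
norm is `r`-close to `v₀` in the `C^{1,α}` norm at any time `t > 0`. -/
theorem result : ∀ α : ℝ, 0 < α → α < 1 → ∃ v₀ : E → E, IsVelocity α v₀ ∧
    ∃ r : ℝ, 0 < r ∧ ∀ t : ℝ, 0 < t → ∀ u : ℝ → E → E, IsEulerSolution α t u →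
      Close α r (u 0) v₀ → ¬ Close α r (u t) v₀ := fun α hα hα1 =>
  torus_main hCOF hAREA hLIN hCONTRA hBUMP (lagt hCONVT) hV0 hRELA hEXACT α hα hα1

end Pool.Agent.Results.MP_beb0a8_an.Torus
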